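import Pool.Agent.Helper7.FreeChain

set_option autoImplicit false

/-! Exact-fill positions: the germ `x ^ e (1 + x)`.

With the weight `w = a + (e + 1) b` of `x ^ a ζ ^ b`, the substitution `ζ ↦ ζ + x ^ e (1 + x)` lowers
weights.  All weights `w < W0` are handled by Vandermonde, the weights `≥ W0` form one square block
whose invertibility is checked modulo a prime. -/

open Polynomial

namespace Pool.Agent.Helper79.E6

open Pool.Agent.Helper41.Fat

variable {K : Type*} [Field K]

/-- The coefficient of weight `w` in the row `b`. -/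
noncomputable def cf (lam : ℕ) (P : K[X][X]) (w b : ℕ) : K :=
  if lam * b ≤ w then (P.coeff b).coeff (w - lam * b) else 0

/-- The matrix entry: the condition `(w, j)` on the cell `(w', b)`. -/
def ment (w j w' b : ℕ) : ℕ := if w ≤ w' then b.choose j * (b - j).choose (w' - w) else 0

theorem coeff_mul_germ_pow (p : K[X]) (e k i : ℕ) :
    (p * (X ^ e * (1 + X)) ^ k).coeff i
      = ∑ s ∈ Finset.range (k + 1), (k.choose s : K) *
          (if (e + 1) * k ≤ i + s then p.coeff (i + s - (e + 1) * k) else 0) := by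
  have h1 : (X ^ e * (1 + X) : K[X]) ^ k
      = ∑ s ∈ Finset.range (k + 1), C ((k.choose s : ℕ) : K) * X ^ (e * k + (k - s)) := by
    rw [mul_pow, ← pow_mul, add_pow, Finset.mul_sum]
    refine Finset.sum_congr rfl fun s _ => ?_
    rw [one_pow, one_mul, pow_add, ← C_eq_natCast]
    ring
  rw [h1, Finset.mul_sum, finsetSum_coeff]
  refine Finset.sum_congr rfl fun s hs => ?_
  rw [Finset.mem_range] at hs
  rw [mul_left_comm, coeff_C_mul, coeff_mul_X_pow']
  congr 1
  have e1 : (e + 1) * k = e * k + k := by ring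
  rw [e1]
  by_cases h : e * k + (k - s) ≤ i
  · rw [if_pos h, if_pos (by omega)]
    congr 1
    omega
  · rw [if_neg h, if_neg (by omega)]

theorem coeff_taylor_sum (P : K[X][X]) (B : ℕ) (hB : ∀ b, B ≤ b → P.coeff b = 0) (η : K[X])
    (j : ℕ) : (taylor η P).coeff j
      = ∑ b ∈ Finset.range B, P.coeff b * (η ^ (b - j) * (b.choose j : K[X])) := by
  have h1 : P = ∑ b ∈ Finset.range B, C (P.coeff b) * X ^ b := by
    ext1 c
    rw [finsetSum_coeff]
    simp only [coeff_C_mul_X_pow]
    by_cases hc : c < B
    · rw [Finset.sum_eq_single c]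
      · rw [if_pos rfl]
      · intro b _ hb
        rw [if_neg (Ne.symm hb)]
      · intro h
        exact absurd (Finset.mem_range.2 hc) h
    · rw [hB c (by omega)]
      symm
      apply Finset.sum_eq_zero
      intro b hb
      rw [Finset.mem_range] at hb
      rw [if_neg (by omega)]
  conv_lhs => rw [h1]
  rw [map_sum, finsetSum_coeff]
  refine Finset.sum_congr rfl fun b _ => ?_
  rw [taylor_mul, taylor_C, taylor_X_pow, coeff_C_mul, coeff_X_add_C_pow]

theorem coeff_taylor_germ (P : K[X][X]) (B Wm : ℕ) (hB : ∀ b, B ≤ b → P.coeff b = 0) (e : ℕ)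
    (hW : ∀ w b, Wm ≤ w → cf (e + 1) P w b = 0) (j i : ℕ) :
    ((taylor (X ^ e * (1 + X)) P).coeff j).coeff i
      = ∑ b ∈ Finset.range B, ∑ w' ∈ Finset.range Wm,
          ((ment (i + (e + 1) * j) j w' b : ℕ) : K) * cf (e + 1) P w' b := by
  rw [coeff_taylor_sum P B hB, finsetSum_coeff]
  refine Finset.sum_congr rfl fun b _ => ?_
  have h0 : P.coeff b * ((X ^ e * (1 + X)) ^ (b - j) * (b.choose j : K[X]))
      = C ((b.choose j : ℕ) : K) * (P.coeff b * (X ^ e * (1 + X)) ^ (b - j)) := by
    rw [C_eq_natCast]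
    ring
  rw [h0, coeff_C_mul, coeff_mul_germ_pow]
  by_cases hbj : b < j
  · rw [Nat.choose_eq_zero_of_lt hbj]
    simp only [Nat.cast_zero, zero_mul]
    symm
    apply Finset.sum_eq_zero
    intro w' _
    rw [ment, Nat.choose_eq_zero_of_lt hbj]
    simp
  push Not at hbj
  -- both sides as sums over a long interval
  obtain ⟨L, hL⟩ : ∃ L : ℕ, L = Wm + (b - j) + 1 + (i + (e + 1) * j) := ⟨_, rfl⟩
  obtain ⟨w, hw⟩ : ∃ w : ℕ, w = i + (e + 1) * j := ⟨_, rfl⟩
  rw [← hw] at hL ⊢
  have hterm : ∀ s, (if (e + 1) * (b - j) ≤ i + s then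
      (P.coeff b).coeff (i + s - (e + 1) * (b - j)) else 0) = cf (e + 1) P (w + s) b := by
    intro s
    obtain ⟨k, rfl⟩ : ∃ k, b = j + k := ⟨b - j, by omega⟩
    rw [Nat.add_sub_cancel_left, cf, hw]
    have e1 : (e + 1) * (j + k) = (e + 1) * j + (e + 1) * k := by ring
    rw [e1]
    by_cases h : (e + 1) * k ≤ i + s
    · rw [if_pos h, if_pos (by omega)]
      congr 1
      omega
    · rw [if_neg h, if_neg (by omega)]
  simp only [hterm]
  have hR : ∑ w' ∈ Finset.range Wm, ((ment w j w' b : ℕ) : K) * cf (e + 1) P w' b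
      = ∑ w' ∈ Finset.range (w + L), ((ment w j w' b : ℕ) : K) * cf (e + 1) P w' b := by
    apply Finset.sum_subset
    · apply Finset.range_subset_range.2
      omega
    · intro w' _ h2
      rw [Finset.mem_range, not_lt] at h2
      rw [hW w' b h2, mul_zero]
  have hL2 : ∑ x ∈ Finset.range (b - j + 1), ((b - j).choose x : K) * cf (e + 1) P (w + x) b
      = ∑ x ∈ Finset.range L, ((b - j).choose x : K) * cf (e + 1) P (w + x) b := by
    apply Finset.sum_subset
    · apply Finset.range_subset_range.2
      omega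
    · intro x _ h2
      rw [Finset.mem_range, not_lt] at h2
      rw [Nat.choose_eq_zero_of_lt (by omega), Nat.cast_zero, zero_mul]
  rw [hR, hL2, Finset.sum_range_add]
  have hz : ∑ x ∈ Finset.range w, ((ment w j x b : ℕ) : K) * cf (e + 1) P x b = 0 := by
    apply Finset.sum_eq_zero
    intro x hx
    rw [Finset.mem_range] at hx
    rw [ment, if_neg (by omega), Nat.cast_zero, zero_mul]
  rw [hz, zero_add, Finset.mul_sum]
  refine Finset.sum_congr rfl fun x _ => ?_
  rw [ment, if_pos (Nat.le_add_right w x), Nat.add_sub_cancel_left, Nat.cast_mul]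
  ring

/-- The binomial matrix on any finite set of columns is invertible. -/
theorem binom_inj [CharZero K] (S : Finset ℕ) (c : ℕ → K)
    (h : ∀ j < S.card, ∑ b ∈ S, (b.choose j : K) * c b = 0) : ∀ b ∈ S, c b = 0 := by
  classical
  let E : Fin S.card ≃ S := (S.orderIsoOfFin rfl).toEquiv
  let v : Fin S.card → K := fun i => ((E i : ℕ) : K)
  have hv : Function.Injective v := by
    intro i j hij
    have h1 : ((E i : ℕ)) = (E j : ℕ) := Nat.cast_injective hij
    exact E.injective (Subtype.ext h1)
  let M : Matrix (Fin S.card) (Fin S.card) K :=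
    Matrix.of fun i j => eval (v i) (descPochhammer K (j : ℕ))
  have hM : M.det ≠ 0 := by
    have h1 := Matrix.det_eval_matrixOfPolynomials_eq_det_vandermonde v
      (fun j : Fin S.card => descPochhammer K (j : ℕ))
      (fun j => descPochhammer_natDegree K j) (fun j => monic_descPochhammer K j)
    have h2 : M.det = (Matrix.vandermonde v).det := h1.symm
    rw [h2]
    exact Matrix.det_vandermonde_ne_zero_iff.2 hv
  have hz : Matrix.vecMul (fun i => c (E i)) M = 0 := by
    funext j
    have h1 := h j j.2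
    have h2 : ∑ b ∈ S, (b.choose (j : ℕ) : K) * c b
        = ∑ i, (((E i : ℕ)).choose (j : ℕ) : K) * c (E i) := by
      rw [← Finset.sum_coe_sort, ← Equiv.sum_comp E]
    rw [h2] at h1
    simp only [Matrix.vecMul, dotProduct, M, Matrix.of_apply, v,
      descPochhammer_eval_eq_descFactorial, Nat.descFactorial_eq_factorial_mul_choose,
      Nat.cast_mul, Pi.zero_apply]
    calc ∑ i, c (E i) * (((j : ℕ).factorial : K) * (((E i : ℕ)).choose (j : ℕ) : K))
        = ((j : ℕ).factorial : K) * ∑ i, (((E i : ℕ)).choose (j : ℕ) : K) * c (E i) := by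
          rw [Finset.mul_sum]
          exact Finset.sum_congr rfl fun i _ => by ring
      _ = 0 := by rw [h1, mul_zero]
  have h3 := Matrix.eq_zero_of_vecMul_eq_zero hM hz
  intro b hb
  have h4 := congrFun h3 (E.symm ⟨b, hb⟩)
  simpa using h4

/-- Injectivity from one block. -/
theorem inj_block [CharZero K] {r m B W0 Wm : ℕ} {n : ℕ → ℕ} (e : ℕ)
    (hB : ∀ b, B ≤ b → n b = 0) (hW : ∀ b < B, (e + 1) * b + n b ≤ Wm)
    (hlow : ∀ w < W0, ∀ j < (act (e + 1) B n w).card,
      j < m ∧ (e + 1) * j ≤ w ∧ w < (e + 1) * j + r * (m - j))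
    (hblock : ∀ x : ℕ → ℕ → K,
      (∀ w b, ¬ (W0 ≤ w ∧ b < B ∧ (e + 1) * b ≤ w ∧ w < (e + 1) * b + n b) → x w b = 0) →
      (∀ w j, W0 ≤ w → j < m → (e + 1) * j ≤ w → w < (e + 1) * j + r * (m - j) →
        ∑ b ∈ Finset.range B, ∑ w' ∈ Finset.range Wm, ((ment w j w' b : ℕ) : K) * x w' b = 0) →
      ∀ w b, x w b = 0)
    (P : K[X][X]) (hP : P ∈ rows K n) (hP0 : Phi K r m (X ^ e * (1 + X)) P = 0) : P = 0 := by
  rw [Phi_eq_zero_iff] at hP0
  have hPB : ∀ b, B ≤ b → P.coeff b = 0 := by
    intro b hb
    have h1 := hP b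
    rw [hB b hb, mem_degreeLT] at h1
    exact degree_eq_bot.1 (Nat.WithBot.lt_zero_iff.1 (by simpa using h1))
  -- the support
  have hsupp : ∀ w b, ¬ (b < B ∧ (e + 1) * b ≤ w ∧ w < (e + 1) * b + n b) →
      cf (e + 1) P w b = 0 := by
    intro w b h
    rw [cf]
    by_cases h1 : (e + 1) * b ≤ w
    · rw [if_pos h1]
      by_cases h2 : b < B
      · have h3 := hP b
        rw [mem_degreeLT] at h3
        apply coeff_eq_zero_of_degree_lt
        refine lt_of_lt_of_le h3 ?_
        exact_mod_cast (by omega : n b ≤ w - (e + 1) * b)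
      · rw [hPB b (by omega), coeff_zero]
    · rw [if_neg h1]
  have hWm : ∀ w b, Wm ≤ w → cf (e + 1) P w b = 0 := by
    intro w b hw
    apply hsupp
    rintro ⟨h1, h2, h3⟩
    have := hW b h1
    omega
  -- the equations
  have heq : ∀ w j, j < m → (e + 1) * j ≤ w → w < (e + 1) * j + r * (m - j) →
      ∑ b ∈ Finset.range B, ∑ w' ∈ Finset.range Wm,
        ((ment w j w' b : ℕ) : K) * cf (e + 1) P w' b = 0 := by
    intro w j hj h1 h2
    have h3 := coeff_taylor_germ P B Wm hPB e hWm j (w - (e + 1) * j)
    rw [Nat.sub_add_cancel h1] at h3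
    rw [← h3]
    exact (X_pow_dvd_iff.1 (hP0 j hj)) _ (by omega)
  -- the block
  have hhigh : ∀ w, W0 ≤ w → ∀ b, cf (e + 1) P w b = 0 := by
    have h1 := hblock (fun w b => if W0 ≤ w then cf (e + 1) P w b else 0) (by
      intro w b h
      by_cases hw : W0 ≤ w
      · rw [if_pos hw]
        apply hsupp
        rintro ⟨h2, h3, h4⟩
        exact h ⟨hw, h2, h3, h4⟩
      · rw [if_neg hw]) (by
      intro w j hw hj h2 h3
      rw [← heq w j hj h2 h3]
      refine Finset.sum_congr rfl fun b _ => Finset.sum_congr rfl fun w' _ => ?_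
      by_cases h4 : W0 ≤ w'
      · simp only [if_pos h4]
      · simp only [if_neg h4]
        rw [ment, if_neg (by omega)]
        simp)
    intro w hw b
    have h2 := h1 w b
    simpa only [if_pos hw] using h2
  -- descending induction
  have hall : ∀ k w, W0 ≤ w + k → ∀ b, cf (e + 1) P w b = 0 := by
    intro k
    induction k with
    | zero => intro w hw; exact hhigh w (by omega)
    | succ k ih =>
      intro w hw
      by_cases hwk : W0 ≤ w + k
      · exact ih w hwk
      have hwW : w < W0 := by omega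
      have hz : ∀ b ∈ act (e + 1) B n w, cf (e + 1) P w b = 0 := by
        apply binom_inj
        intro j hj
        obtain ⟨h1, h2, h3⟩ := hlow w hwW j hj
        rw [← heq w j h1 h2 h3]
        symm
        have h4 : ∀ b ∈ Finset.range B, ∑ w' ∈ Finset.range Wm,
            ((ment w j w' b : ℕ) : K) * cf (e + 1) P w' b
            = (b.choose j : K) * cf (e + 1) P w b := by
          intro b _
          by_cases hwm : w < Wm
          · rw [Finset.sum_eq_single w]
            · rw [ment, if_pos le_rfl, Nat.sub_self, Nat.choose_zero_right, mul_one]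
            · intro w' _ hne
              by_cases hlt : w ≤ w'
              · rw [ih w' (by omega) b, mul_zero]
              · rw [ment, if_neg hlt, Nat.cast_zero, zero_mul]
            · intro h
              exact absurd (Finset.mem_range.2 hwm) h
          · rw [hWm w b (by omega), mul_zero]
            apply Finset.sum_eq_zero
            intro w' hw'
            rw [Finset.mem_range] at hw'
            rw [ment, if_neg (by omega), Nat.cast_zero, zero_mul]
        rw [Finset.sum_congr rfl h4]
        symm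
        apply Finset.sum_subset
        · intro b hb
          rw [mem_act] at hb
          exact Finset.mem_range.2 hb.1
        · intro b hb hb2
          rw [Finset.mem_range] at hb
          rw [hsupp w b (fun h => hb2 (mem_act.2 h)), mul_zero]
      intro b
      by_cases hb : b ∈ act (e + 1) B n w
      · exact hz b hb
      · exact hsupp w b (fun h => hb (mem_act.2 h))
  ext b a
  have h1 := hall W0 (a + (e + 1) * b) (by omega) b
  rw [cf, if_pos (by omega), Nat.add_sub_cancel] at h1
  rw [h1]
  simp

end Pool.Agent.Helper79.E6
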