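import Pool.Agent.Helper79.E6.Bridge

set_option autoImplicit false

/-! Checking the invertibility of the block modulo a prime with packed numbers. -/

open Polynomial

namespace Pool.Agent.Helper79.E6

/-- A packed row. -/
def pk (X : ℕ) (f : ℕ × ℕ → ℕ) : List (ℕ × ℕ) → ℕ
  | [] => 0
  | c :: cs => f c + X * pk X f cs

/-- A combination of packed rows, the coefficients are the digits of `b` to the base `Y`. -/
def comb (Y : ℕ) : ℕ → List ℕ → ℕ
  | _, [] => 0
  | b, r :: rs => (b % Y) * r + comb Y (b / Y) rs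

/-- The digits of `c` are, modulo `p`, those of the `i`-th unit vector. -/
def chkDig (X p i c : ℕ) : ℕ → Bool
  | 0 => true
  | k + 1 => Nat.beq ((c / X ^ k % X) % p) (if k = i then 1 else 0) && chkDig X p i c k

/-- All rows. -/
def chkAll (X Y p N : ℕ) (rows : List ℕ) : ℕ → List ℕ → Bool
  | _, [] => true
  | i, b :: bs => chkDig X p i (comb Y b rows) N && chkAll X Y p N rows (i + 1) bs

theorem pk_eq (X : ℕ) (f : ℕ × ℕ → ℕ) (cs : List (ℕ × ℕ)) :
    pk X f cs = ∑ k : Fin cs.length, f cs[k] * X ^ (k : ℕ) := by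
  induction cs with
  | nil => rfl
  | cons c cs ih =>
    rw [pk, ih]
    simp only [List.length_cons]
    rw [Fin.sum_univ_succ]
    simp only [Fin.getElem_fin, Fin.val_zero, List.getElem_cons_zero, pow_zero, mul_one,
      Fin.val_succ, List.getElem_cons_succ]
    rw [Finset.mul_sum]
    congr 1
    refine Finset.sum_congr rfl fun k _ => ?_
    rw [pow_succ]
    ring

theorem comb_eq (Y : ℕ) (rows : List ℕ) : ∀ b : ℕ,
    comb Y b rows = ∑ t : Fin rows.length, (b / Y ^ (t : ℕ) % Y) * rows[t] := by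
  induction rows with
  | nil => intro b; rfl
  | cons r rs ih =>
    intro b
    rw [comb, ih]
    simp only [List.length_cons]
    rw [Fin.sum_univ_succ]
    simp only [Fin.getElem_fin, Fin.val_zero, List.getElem_cons_zero, pow_zero, Nat.div_one,
      Fin.val_succ, List.getElem_cons_succ]
    congr 1
    refine Finset.sum_congr rfl fun k _ => ?_
    rw [pow_succ', Nat.div_div_eq_div_mul]

theorem digit_eq (X : ℕ) : ∀ (N : ℕ) (G : Fin N → ℕ), (∀ k, G k < X) → ∀ k0 : Fin N,
    (∑ k, G k * X ^ (k : ℕ)) / X ^ (k0 : ℕ) % X = G k0 := by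
  intro N
  induction N with
  | zero => intro G _ k0; exact k0.elim0
  | succ N ih =>
    intro G hG k0
    have hX : 0 < X := lt_of_le_of_lt (Nat.zero_le _) (hG k0)
    have h1 : ∑ k, G k * X ^ (k : ℕ) = G 0 + X * ∑ k : Fin N, G k.succ * X ^ (k : ℕ) := by
      rw [Fin.sum_univ_succ, Finset.mul_sum]
      simp only [Fin.val_zero, pow_zero, mul_one, Fin.val_succ]
      congr 1
      refine Finset.sum_congr rfl fun k _ => ?_
      rw [pow_succ]
      ring
    rw [h1]
    refine Fin.cases ?_ (fun k => ?_) k0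
    · rw [Fin.val_zero, pow_zero, Nat.div_one, Nat.add_mul_mod_self_left, Nat.mod_eq_of_lt (hG 0)]
    · rw [Fin.val_succ, pow_succ', ← Nat.div_div_eq_div_mul, Nat.add_mul_div_left _ _ hX,
        Nat.div_eq_of_lt (hG 0), zero_add]
      exact ih (fun k => G k.succ) (fun k => hG k.succ) k

theorem chkDig_spec (X p i c : ℕ) : ∀ N : ℕ, chkDig X p i c N = true → ∀ k < N,
    (c / X ^ k % X) % p = if k = i then 1 else 0 := by
  intro N
  induction N with
  | zero => intro _ k hk; omega
  | succ N ih =>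
    intro h k hk
    rw [chkDig, Bool.and_eq_true] at h
    rcases Nat.lt_succ_iff_lt_or_eq.1 hk with h1 | h1
    · exact ih h.2 k h1
    · subst h1
      exact Nat.eq_of_beq_eq_true h.1

theorem chkAll_spec (X Y p N : ℕ) (rows : List ℕ) : ∀ (bs : List ℕ) (i0 : ℕ),
    chkAll X Y p N rows i0 bs = true → ∀ i : Fin bs.length, ∀ k < N,
    (comb Y bs[i] rows / X ^ k % X) % p = if k = i0 + i then 1 else 0 := by
  intro bs
  induction bs with
  | nil => intro i0 _ i; exact i.elim0
  | cons b bs ih =>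
    intro i0 h i
    rw [chkAll, Bool.and_eq_true] at h
    refine Fin.cases ?_ (fun j => ?_) i
    · intro k hk
      have := chkDig_spec X p i0 _ N h.1 k hk
      simpa using this
    · intro k hk
      have := ih (i0 + 1) h.2 j k hk
      simp only [Fin.getElem_fin, Fin.val_succ, List.getElem_cons_succ] at this ⊢
      rw [this]
      have e : i0 + 1 + (j : ℕ) = i0 + ((j : ℕ) + 1) := by ring
      rw [e]

/-- A matrix of natural numbers with a left inverse modulo `p` is invertible in characteristic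
zero. -/
theorem mat_inj {K : Type*} [Field K] [CharZero K] {N p : ℕ} (hp : 1 < p)
    (M B : Fin N → Fin N → ℕ)
    (h : ∀ i k, (∑ t, B i t * M t k) % p = if k = i then 1 else 0) (y : Fin N → K)
    (hy : ∀ t, ∑ k, (M t k : K) * y k = 0) : y = 0 := by
  haveI : Fact (1 < p) := ⟨hp⟩
  let MZ : Matrix (Fin N) (Fin N) ℤ := Matrix.of fun t k => (M t k : ℤ)
  let MP : Matrix (Fin N) (Fin N) (ZMod p) := Matrix.of fun t k => (M t k : ZMod p)
  let BP : Matrix (Fin N) (Fin N) (ZMod p) := Matrix.of fun t k => (B t k : ZMod p)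
  have h1 : BP * MP = 1 := by
    ext i k
    rw [Matrix.mul_apply, Matrix.one_apply]
    have h2 : ∑ t, BP i t * MP t k = ((∑ t, B i t * M t k : ℕ) : ZMod p) := by
      push_cast
      rfl
    rw [h2, ← ZMod.natCast_mod, h i k]
    by_cases hik : i = k
    · rw [if_pos hik, if_pos hik.symm, Nat.cast_one]
    · rw [if_neg hik, if_neg (Ne.symm hik), Nat.cast_zero]
  have h3 : MP.det ≠ 0 := by
    intro h0
    have h4 := congrArg Matrix.det h1
    rw [Matrix.det_mul, h0, mul_zero, Matrix.det_one] at h4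
    exact zero_ne_one h4
  have h5 : ((MZ.det : ℤ) : ZMod p) = MP.det := by
    refine (RingHom.map_det (Int.castRingHom (ZMod p)) MZ).trans ?_
    congr 1
    ext t k
    simp [MZ, MP]
  have h6 : MZ.det ≠ 0 := by
    intro h0
    apply h3
    rw [← h5, h0, Int.cast_zero]
  let MK : Matrix (Fin N) (Fin N) K := Matrix.of fun t k => (M t k : K)
  have h7 : ((MZ.det : ℤ) : K) = MK.det := by
    refine (RingHom.map_det (Int.castRingHom K) MZ).trans ?_
    congr 1
    ext t k
    simp [MZ, MK]
  have h8 : MK.det ≠ 0 := by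
    rw [← h7]
    exact Int.cast_ne_zero.2 h6
  apply Matrix.eq_zero_of_mulVec_eq_zero h8
  funext t
  exact hy t

/-- Fast binomial coefficients, for small arguments. -/
def chf (b j : ℕ) : ℕ := 65537 ^ b / 65536 ^ j % 65536

theorem chf_eq : ∀ b < 17, ∀ j < 17, chf b j = b.choose j := by decide

/-- Fast matrix entries. -/
def fm (p : ℕ) (t c : ℕ × ℕ) : ℕ :=
  if t.1 ≤ c.1 then (if c.1 - t.1 < 17 then chf c.2 t.2 * chf (c.2 - t.2) (c.1 - t.1) % p else 0)
  else 0

theorem fm_eq (p : ℕ) (t c : ℕ × ℕ) (ht : t.2 < 17) (hc : c.2 < 17) :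
    fm p t c = ment t.1 t.2 c.1 c.2 % p := by
  rw [fm, ment]
  by_cases h1 : t.1 ≤ c.1
  · rw [if_pos h1, if_pos h1]
    by_cases h2 : c.1 - t.1 < 17
    · rw [if_pos h2, chf_eq _ hc _ ht, chf_eq _ (by omega) _ h2]
    · rw [if_neg h2, Nat.choose_eq_zero_of_lt (by omega : c.2 - t.2 < c.1 - t.1), mul_zero,
        Nat.zero_mod]
  · rw [if_neg h1, if_neg h1, Nat.zero_mod]

theorem cert_inj {K : Type*} [Field K] [CharZero K] (X Y p : ℕ) (hp : 1 < p) (hY : 0 < Y)
    (LR LT : List (ℕ × ℕ)) (Bs : List ℕ) (hT : LT.length = LR.length)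
    (hB : Bs.length = LR.length) (hX : LR.length * (Y * p) < X)
    (h17T : ∀ t ∈ LT, t.2 < 17) (h17R : ∀ c ∈ LR, c.2 < 17)
    (hchk : chkAll X Y p LR.length (LT.map (fun t => pk X (fm p t) LR)) 0 Bs = true)
    (y : ℕ × ℕ → K)
    (hy : ∀ t ∈ LT, (LR.map (fun c => (ment t.1 t.2 c.1 c.2 : K) * y c)).sum = 0) :
    ∀ c ∈ LR, y c = 0 := by
  obtain ⟨N, hN⟩ : ∃ N, N = LR.length := ⟨_, rfl⟩
  have hNR : N = LR.length := hN
  have hNT : N = LT.length := by rw [hT, hN]
  have hNB : N = Bs.length := by rw [hB, hN]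
  let M : Fin N → Fin N → ℕ := fun t k =>
    ment (LT[(t : ℕ)]'(by omega)).1 (LT[(t : ℕ)]'(by omega)).2
      (LR[(k : ℕ)]'(by omega)).1 (LR[(k : ℕ)]'(by omega)).2
  let B : Fin N → Fin N → ℕ := fun i t => (Bs[(i : ℕ)]'(by omega)) / Y ^ (t : ℕ) % Y
  have key : ∀ i k : Fin N, (∑ t, B i t * M t k) % p = if k = i then 1 else 0 := by
    intro i k
    have h1 := chkAll_spec X Y p LR.length _ Bs 0 hchk ⟨i, by omega⟩ k (by omega)
    rw [comb_eq] at h1
    -- rewrite the combination
    have h2 : ∑ t : Fin (LT.map (fun t => pk X (fm p t) LR)).length,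
        (Bs[(⟨i, by omega⟩ : Fin Bs.length)] / Y ^ (t : ℕ) % Y)
          * (LT.map (fun t => pk X (fm p t) LR))[t]
        = ∑ k' : Fin N, (∑ t : Fin N, B i t * (M t k' % p)) * X ^ (k' : ℕ) := by
      have hlen : N = (LT.map (fun t => pk X (fm p t) LR)).length := by
        rw [List.length_map]; exact hNT
      rw [← (finCongr hlen).sum_comp]
      simp only [Finset.sum_mul]
      rw [Finset.sum_comm]
      refine Finset.sum_congr rfl fun t _ => ?_
      simp only [finCongr_apply, Fin.getElem_fin, Fin.val_cast, List.getElem_map]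
      rw [pk_eq, ← (finCongr hNR).sum_comp, Finset.mul_sum]
      refine Finset.sum_congr rfl fun k' _ => ?_
      simp only [finCongr_apply, Fin.getElem_fin, Fin.val_cast]
      rw [fm_eq p _ _ (h17T _ (List.getElem_mem _)) (h17R _ (List.getElem_mem _))]
      simp only [B, M]
      ring
    rw [h2, digit_eq X N (fun k' => ∑ t : Fin N, B i t * (M t k' % p))] at h1
    · rw [zero_add] at h1
      have h3 : (∑ t, B i t * M t k) % p = (∑ t, B i t * (M t k % p)) % p := by
        rw [Finset.sum_nat_mod, Finset.sum_nat_mod (f := fun t => B i t * (M t k % p))]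
        congr 1
        refine Finset.sum_congr rfl fun t _ => ?_
        rw [Nat.mul_mod, Nat.mul_mod (B i t) (M t k % p), Nat.mod_mod]
      rw [h3, h1]
      by_cases hik : k = i
      · subst hik
        simp
      · rw [if_neg hik, if_neg]
        intro h
        exact hik (Fin.ext h)
    · intro k'
      have h4 : ∑ t : Fin N, B i t * (M t k' % p) ≤ ∑ _t : Fin N, Y * p := by
        refine Finset.sum_le_sum fun t _ => ?_
        exact Nat.mul_le_mul (Nat.mod_lt _ hY).le (Nat.mod_lt _ (by omega)).le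
      rw [Finset.sum_const, Finset.card_univ, Fintype.card_fin, smul_eq_mul] at h4
      rw [← hNR] at hX
      exact lt_of_le_of_lt h4 hX
  have h5 := mat_inj (K := K) hp M B key (fun k => y (LR[(k : ℕ)]'(by omega))) (by
    intro t
    have h6 := hy (LT[(t : ℕ)]'(by omega)) (List.getElem_mem _)
    rw [← Fin.sum_univ_fun_getElem] at h6
    rw [← h6, ← (finCongr hNR).sum_comp]
    rfl)
  intro c hc
  obtain ⟨k, hk, rfl⟩ := List.getElem_of_mem hc
  have h7 := congrFun h5 ⟨k, by omega⟩
  exact h7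

end Pool.Agent.Helper79.E6
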