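import Pool.Agent.Helper79.E6.Cert

set_option autoImplicit false

/-! The general certificate theorem. -/

open Polynomial

namespace Pool.Agent.Helper79.E6

open Pool.Agent.Helper41.Fat Pool.Agent.Helper7.Free

/-- The cells of weight in `[W0, Wm)` of a diagram with rows `len`, with their weights. -/
def cells (lam W0 Wm B : ℕ) (len : ℕ → ℕ) : List (ℕ × ℕ) :=
  ((List.range Wm).product (List.range B)).filter
    (fun c => decide (W0 ≤ c.1 ∧ lam * c.2 ≤ c.1 ∧ c.1 < lam * c.2 + len c.2))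

theorem mem_cells {lam W0 Wm B : ℕ} {len : ℕ → ℕ} {c : ℕ × ℕ} :
    c ∈ cells lam W0 Wm B len ↔
      c.1 < Wm ∧ c.2 < B ∧ W0 ≤ c.1 ∧ lam * c.2 ≤ c.1 ∧ c.1 < lam * c.2 + len c.2 := by
  obtain ⟨w, b⟩ := c
  rw [cells, List.mem_filter, List.pair_mem_product, List.mem_range, List.mem_range,
    decide_eq_true_iff]
  simp only
  tauto

theorem sum_cells {K : Type*} [Field K] {lam W0 Wm B : ℕ} {len : ℕ → ℕ} (g : ℕ × ℕ → K)
    (hg : ∀ w b, ¬ (W0 ≤ w ∧ lam * b ≤ w ∧ w < lam * b + len b) → g (w, b) = 0) :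
    ((cells lam W0 Wm B len).map g).sum
      = ∑ b ∈ Finset.range B, ∑ w ∈ Finset.range Wm, g (w, b) := by
  classical
  have hnd : (cells lam W0 Wm B len).Nodup :=
    (List.nodup_range.product List.nodup_range).filter _
  rw [← List.sum_toFinset g hnd, Finset.sum_comm, ← Finset.sum_product']
  apply Finset.sum_subset
  · intro c hc
    rw [List.mem_toFinset, mem_cells] at hc
    rw [Finset.mem_product, Finset.mem_range, Finset.mem_range]
    exact ⟨hc.1, hc.2.1⟩
  · intro c hc hc2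
    rw [Finset.mem_product, Finset.mem_range, Finset.mem_range] at hc
    rw [List.mem_toFinset, mem_cells] at hc2
    apply hg
    intro h
    exact hc2 ⟨hc.1, hc.2, h⟩

theorem good_cert {K : Type*} [Field K] [CharZero K] (r m e B W0 Wm Z Y p : ℕ) (n : ℕ → ℕ)
    (Bs : List ℕ) (hp : 1 < p) (hY : 0 < Y)
    (hB : ∀ b, B ≤ b → n b = 0) (hW : ∀ b < B, (e + 1) * b + n b ≤ Wm)
    (hlow : ∀ w < W0, ∀ j < (act (e + 1) B n w).card,
      j < m ∧ (e + 1) * j ≤ w ∧ w < (e + 1) * j + r * (m - j))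
    (hm17 : m ≤ 17) (hB17 : B ≤ 17) (N : ℕ)
    (hR : (cells (e + 1) W0 Wm B n).length = N)
    (hT : (cells (e + 1) W0 Wm m (fun j => r * (m - j))).length = N)
    (hBs : Bs.length = N) (hZ : N * (Y * p) < Z)
    (hchk : chkAll Z Y p N ((cells (e + 1) W0 Wm m (fun j => r * (m - j))).map
      (fun t => pk Z (fm p t) (cells (e + 1) W0 Wm B n))) 0 Bs = true) :
    Good K r m n (∑ b ∈ Finset.range B, n b) := by
  apply good_of_inj B (X ^ e * (1 + X))
  apply inj_block e hB hW hlow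
  intro x hx hy w b
  by_contra hne
  have hmem : (w, b) ∈ cells (e + 1) W0 Wm B n := by
    rw [mem_cells]
    by_contra hcon
    apply hne
    apply hx
    rintro ⟨h1, h2, h3, h4⟩
    have := hW b h2
    exact hcon ⟨by simp only; omega, h2, h1, h3, h4⟩
  apply hne
  refine cert_inj (K := K) Z Y p hp hY (cells (e + 1) W0 Wm B n)
    (cells (e + 1) W0 Wm m (fun j => r * (m - j))) Bs (by rw [hT, hR]) (by rw [hBs, hR])
    (by rw [hR]; exact hZ) ?_ ?_ (by rw [hR]; exact hchk) (fun c => x c.1 c.2) ?_ (w, b) hmem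
  · intro t ht
    rw [mem_cells] at ht
    omega
  · intro t ht
    rw [mem_cells] at ht
    omega
  · intro t ht
    rw [mem_cells] at ht
    rw [sum_cells (fun c => (ment t.1 t.2 c.1 c.2 : K) * x c.1 c.2)]
    · exact hy t.1 t.2 ht.2.2.1 ht.2.1 ht.2.2.2.1 ht.2.2.2.2
    · intro w' b' h
      simp only
      rw [hx w' b' (fun h' => h ⟨h'.1, h'.2.2.1, h'.2.2.2⟩), mul_zero]

end Pool.Agent.Helper79.E6
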